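import Mathlib
import Pool.Agent.R172.Symm

set_option autoImplicit false

/-!
# Strictly monotonic idempotent symmetrizations are projection invariant

If `L = {p : P p ∈ C, ‖p - P p‖ ≤ s}` with a convex body `C` of `H`, then `L` is the closure of the
union of the spherical cylinders in it, hence `L ⊆ ◇ L`. By strict monotonicity and
`◇ (◇ L) = ◇ L` we get `◇ L = L`. Such sets `L` give the upper bound for the projection of `◇ K`.
-/

namespace Pool.Agent.Results.MP_f102ee_gt.StrictlyMonotonic

open Pool.Agent.R172.Symm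

/-- `S` is a symmetrization of the class `B` in the subspace `H`: it maps `B` to the members of
`B` which are symmetric under the reflection in `H`. -/
def IsSymmetrization {n : ℕ} (H : Submodule ℝ (EuclideanSpace ℝ (Fin n)))
    (B : Set (Set (EuclideanSpace ℝ (Fin n))))
    (S : Set (EuclideanSpace ℝ (Fin n)) → Set (EuclideanSpace ℝ (Fin n))) : Prop :=
  ∀ K ∈ B, S K ∈ B ∧ H.reflection '' S K = S K

/-- For both classes `B` (`KC n`: nonempty compact convex sets, `KB n`: convex bodies) and every
subspace `H`, every strictly monotonic, idempotent symmetrization in `H` which is invariant on the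
`H`-symmetric spherical cylinders is projection invariant. -/
theorem result (n : ℕ) (H : Submodule ℝ (EuclideanSpace ℝ (Fin n)))
    (B : Set (Set (EuclideanSpace ℝ (Fin n)))) (hB : B = KC n ∨ B = KB n)
    (S : Set (EuclideanSpace ℝ (Fin n)) → Set (EuclideanSpace ℝ (Fin n)))
    (hS : IsSymmetrization H B S)
    (hmono : ∀ K ∈ B, ∀ L ∈ B, K ⊆ L → S K ⊆ S L)
    (hstrict : ∀ K ∈ B, ∀ L ∈ B, K ⊆ L → K ≠ L → S K ≠ S L)
    (hidem : ∀ K ∈ B, S (S K) = S K)
    (hcyl : ∀ x ∈ H, ∀ r > 0, ∀ s > 0, S (cyl H x r s) = cyl H x r s) :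
    ∀ K ∈ B, H.starProjection '' S K = H.starProjection '' K := by
  refine proj_invariant H hB S (fun K hK => (hS K hK).1) hmono hcyl
    (fun x hx r hr s hs => cyl_mem H hB hx hr hs) ?_
  intro K hK hsub
  by_contra hne
  exact hstrict K hK (S K) (hS K hK).1 hsub (Ne.symm hne) (hidem K hK).symm

end Pool.Agent.Results.MP_f102ee_gt.StrictlyMonotonic
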